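import Mathlib

set_option autoImplicit false

namespace Pool.Agent.Results.MP_ab166a_nt.No

/-- The wavevector set `Λ`. -/
def Lam : Set (ℤ × ℤ) := {p | ∃ x y : ℤ,
  x * (p.1 ^ 2 + p.2 ^ 2) * (p.1 ^ 2 + p.2 ^ 2 - 2 * p.1 * x - 2 * p.2 * y) =
    p.1 * (x ^ 2 + y ^ 2) * (x ^ 2 + y ^ 2 - 2 * p.1 * x - 2 * p.2 * y) ∧ p.1 * x * (p.1 - x) ≠ 0}

theorem result : ∃ a b : ℤ, (a, b) ∈ Lam ∧ 0 < a ∧ 0 < b ∧ (a, b) ≠ (800, 4) ∧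
    √3 * (b : ℝ) ^ 4 ≤ a := by
  refine ⟨25157928, 37, ⟨4208896, -18011242, by norm_num, by norm_num⟩, by norm_num, by norm_num,
    by simp, ?_⟩
  have : √3 ≤ 2 := Real.sqrt_le_iff.2 ⟨by norm_num, by norm_num⟩
  push_cast
  nlinarith

end Pool.Agent.Results.MP_ab166a_nt.No
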